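import Pool.Agent.H887.BK.D3

/-!
# Symmetries of the reduced matrix, of the coordinates and of the kernel
-/

set_option autoImplicit false
set_option linter.unusedSectionVars false
set_option linter.unusedVariables false

namespace Pool.Agent.H337.BKG

open MvPolynomial Pool.Agent.H425 Pool.Agent.H887.BK

section char

variable {ι : Type} [Fintype ι] {A : Type} [CommRing A] (β : ι → A)

/-- the character of an exponent -/
def ch (w : ι →₀ ℕ) : A := ∏ i, β i ^ (w i)

lemma ch_zero : ch β 0 = 1 := by
  unfold ch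
  simp

lemma ch_add (v w : ι →₀ ℕ) : ch β (v + w) = ch β v * ch β w := by
  unfold ch
  rw [← Finset.prod_mul_distrib]
  refine Finset.prod_congr rfl fun i _ => ?_
  rw [Finsupp.add_apply, pow_add]

lemma ch_nsmul (n : ℕ) (w : ι →₀ ℕ) : ch β (n • w) = ch β w ^ n := by
  unfold ch
  rw [← Finset.prod_pow]
  refine Finset.prod_congr rfl fun i _ => ?_
  rw [Finsupp.smul_apply, smul_eq_mul, mul_comm, pow_mul]

lemma ch_single [DecidableEq ι] (i : ι) (n : ℕ) : ch β (Finsupp.single i n) = β i ^ n := by
  unfold ch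
  rw [Finset.prod_eq_single i]
  · rw [Finsupp.single_eq_same]
  · intro j _ hj
    rw [Finsupp.single_eq_of_ne hj, pow_zero]
  · intro h
    exact absurd (Finset.mem_univ i) h

lemma ch_emb {e : ℕ} (u : ι → Fin e) : ch β (emb u) = ∏ i, β i ^ (u i : ℕ) := rfl

lemma ch_pow_eq {d : ℕ} (hβ : ∀ i, β i ^ d = 1) (w : ι →₀ ℕ) : ch β w ^ d = 1 := by
  unfold ch
  rw [← Finset.prod_pow]
  refine Finset.prod_eq_one fun i _ => ?_
  rw [← pow_mul, mul_comm, pow_mul, hβ, one_pow]

lemma ch_pow_p {d p : ℕ} (hβ : ∀ i, β i ^ d = 1) (hp : p ≡ 1 [MOD d]) (w : ι →₀ ℕ) (hp0 : 1 ≤ p) :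
    ch β w ^ p = ch β w := by
  have h1 : d ∣ p - 1 := (Nat.modEq_iff_dvd' hp0).1 hp.symm
  obtain ⟨m, hm⟩ := h1
  have h2 : p = d * m + 1 := by omega
  rw [h2, pow_succ, pow_mul, ch_pow_eq β hβ, one_pow, one_mul]

end char

section series

variable {ι : Type} [Fintype ι] {A R : Type} [CommRing A] [CommRing R] (β : ι → A)

/-- all exponents have trivial character -/
def Tr (F : MvPowerSeries ι R) : Prop := ∀ w, MvPowerSeries.coeff w F ≠ 0 → ch β w = 1

lemma Tr.one : Tr β (1 : MvPowerSeries ι R) := by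
  classical
  intro w hw
  rw [MvPowerSeries.coeff_one] at hw
  split_ifs at hw with h
  · rw [h, ch_zero]
  · exact absurd rfl hw

lemma Tr.mul {F G : MvPowerSeries ι R} (hF : Tr β F) (hG : Tr β G) : Tr β (F * G) := by
  classical
  intro w hw
  rw [MvPowerSeries.coeff_mul] at hw
  obtain ⟨x, hx, hx2⟩ := Finset.exists_ne_zero_of_sum_ne_zero hw
  rw [Finset.HasAntidiagonal.mem_antidiagonal] at hx
  rw [← hx, ch_add, hF _ (left_ne_zero_of_mul hx2), hG _ (right_ne_zero_of_mul hx2), one_mul]

lemma Tr.prod {T : Type} (s : Finset T) (F : T → MvPowerSeries ι R) (h : ∀ t ∈ s, Tr β (F t)) :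
    Tr β (∏ t ∈ s, F t) := by
  classical
  induction s using Finset.induction_on with
  | empty => rw [Finset.prod_empty]; exact Tr.one β
  | insert a s ha ih =>
    rw [Finset.prod_insert ha]
    exact Tr.mul β (h a (Finset.mem_insert_self _ _))
      (ih fun t ht => h t (Finset.mem_insert_of_mem ht))

/-- series in the powers of one monomial -/
lemma Tr.pows [DecidableEq ι] (s : ι →₀ ℕ) (c : R) (a : ℕ → R) (F : MvPowerSeries ι R)
    (hF : ∀ w, MvPowerSeries.coeff w F ≠ 0 → ∃ j : ℕ, j • s = w ∧ a j * c ^ j ≠ 0)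
    (h : c ≠ 0 → ch β s = 1) : Tr β F := by
  intro w hw
  obtain ⟨j, hj, hj2⟩ := hF w hw
  rw [← hj, ch_nsmul]
  rcases Nat.eq_zero_or_pos j with h0 | h0
  · rw [h0, pow_zero]
  · have hc : c ≠ 0 := by
      rintro rfl
      rw [zero_pow h0.ne', mul_zero] at hj2
      exact hj2 rfl
    rw [h hc, one_pow]

end series

/-- the kernel respects the symmetries -/
theorem h_KGw : Pool.Agent.H887.BK.S_KGw := by
  intro ι _ _ p d _ K R _ _ _ S c A _ _ β hp4 hd hpd hβ hs V U hVU
  classical
  have h0 : 0 ∉ Sd ι d := by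
    rw [mem_Sd]
    simp only [map_zero]
    omega
  have hdeg : ∀ s ∈ Sd ι d, s.degree ≤ d := fun s hs => ((mem_Sd d s).1 hs).le
  have h1 := (S.ker_spec (by omega) (Sd ι d) c h0 hdeg V U).2
  have hTr : Tr β (S.FF (Sd ι d) c) := by
    unfold Pre.FF
    apply Tr.prod
    intro s hs'
    refine Tr.pows β s (c s) S.th _ ?_ (hs s hs')
    intro w hw
    have hs0 : s ≠ 0 := fun h => h0 (h ▸ hs')
    by_cases hj : ∃ j : ℕ, j • s = w
    · obtain ⟨j, hj⟩ := hj
      refine ⟨j, hj, ?_⟩
      rwa [← hj, S.coeff_Fs s hs0] at hw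
    · push Not at hj
      exact absurd (S.coeff_Fs_ne s (c s) w hj) hw
  have hG : S.Gk (Sd ι d) c V U = 0 := by
    unfold Pre.Gk
    split_ifs with hU
    · by_contra hne
      have h2 := hTr _ hne
      apply hVU
      show ch β V = ch β U
      have h3 : ch β (p • V - U) * ch β U = ch β (p • V) := by
        rw [← ch_add, tsub_add_cancel_of_le hU]
      rw [h2, one_mul, ch_nsmul, ch_pow_p β hβ hpd V (by omega)] at h3
      exact h3.symm
    · rfl
  rw [hG, mul_zero] at h1
  rcases mul_eq_zero.1 h1 with h2 | h2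
  · exact absurd h2 (pow_ne_zero _ S.lam_ne)
  · exact h2

section poly

variable {ι : Type} [Fintype ι] [DecidableEq ι] {L : Type} [CommRing L] (β : ι → L)

/-- the substitution `x_i ↦ β_i x_i` -/
noncomputable def sg : MvPolynomial ι L →ₐ[L] MvPolynomial ι L := aeval fun i => C (β i) * X i

lemma sg_monomial (s : ι →₀ ℕ) (a : L) : sg β (monomial s a) = monomial s (ch β s * a) := by
  unfold sg
  rw [aeval_monomial, Finsupp.prod_fintype _ _ (fun i => pow_zero _)]
  simp only [mul_pow]
  rw [Finset.prod_mul_distrib]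
  have h1 : ∏ i, C (β i) ^ (s i) = (C (ch β s) : MvPolynomial ι L) := by
    unfold ch
    rw [map_prod]
    simp only [map_pow]
  have h2 : ∏ i, (X i : MvPolynomial ι L) ^ (s i) = monomial s 1 := by
    rw [monomial_eq, Finsupp.prod_fintype _ _ (fun i => pow_zero _), C_1, one_mul]
  rw [h1, h2, algebraMap_eq, C_mul_monomial, C_mul_monomial, mul_one, mul_comm]

lemma sg_pderiv (i : ι) (P : MvPolynomial ι L) :
    pderiv i (sg β P) = C (β i) * sg β (pderiv i P) := by
  induction P using MvPolynomial.induction_on' with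
  | monomial s a =>
    rw [sg_monomial, pderiv_monomial, pderiv_monomial, sg_monomial, C_mul_monomial]
    rcases Nat.eq_zero_or_pos (s i) with h | h
    · rw [h]
      simp
    · congr 1
      have h1 : s = (s - Finsupp.single i 1) + Finsupp.single i 1 := by
        rw [tsub_add_cancel_of_le]
        rw [Finsupp.single_le_iff]
        exact h
      have h2 : ch β s = ch β (s - Finsupp.single i 1) * β i := by
        conv_lhs => rw [h1]
        rw [ch_add, ch_single, pow_one]
      rw [h2]
      ring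
  | add p q hp hq => rw [map_add, map_add, hp, hq, map_add, map_add, mul_add]

lemma sg_fix (H : MvPolynomial ι L) (h : ∀ s ∈ H.support, ch β s = 1) : sg β H = H := by
  conv_rhs => rw [H.as_sum]
  conv_lhs => rw [H.as_sum, map_sum]
  refine Finset.sum_congr rfl fun s hs => ?_
  rw [sg_monomial, h s hs, one_mul]

end poly

/-- the coordinates respect the symmetries -/
theorem h_RdGr : Pool.Agent.H887.BK.S_RdGr := by
  intro ι _ _ L _ e H D β hβ hH v u
  have hfix := sg_fix β H hH
  have hz : ∀ i P, D.rd (sg β (yop H i P)) = 0 := by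
    intro i P
    have h1 : C (β i) * sg β (yop H i P) = yop H i (sg β P) := by
      rw [yop_apply, yop_apply, map_add, map_mul, mul_add, ← sg_pderiv, ← mul_assoc, ← sg_pderiv,
        hfix]
    have h2 : D.rd (C (β i) * sg β (yop H i P)) = 0 := by rw [h1, D.rd_yop]
    rw [← smul_eq_C_mul, map_smul] at h2
    have h3 : (β i ^ e) • (β i • D.rd (sg β (yop H i P))) = D.rd (sg β (yop H i P)) := by
      rw [smul_smul, ← pow_succ, hβ, one_smul]
    rw [← h3, h2, smul_zero]
  obtain ⟨Q, hQ⟩ := D.dec (monomial v 1)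
  have h4 : D.rd (sg β (monomial v 1)) u = D.rd (monomial v 1) u * ch β (emb u) := by
    conv_lhs => rw [hQ]
    rw [map_add, map_sum, map_sum, map_add, map_sum, map_sum]
    have h5 : ∑ i, D.rd (sg β (yop H i (Q i))) = 0 := Finset.sum_eq_zero fun i _ => hz i _
    rw [h5, add_zero, Finset.sum_apply, Finset.sum_eq_single u]
    · rw [map_smul, map_smul, sg_monomial, mul_one]
      have h6 : (monomial (emb u) (ch β (emb u)) : MvPolynomial ι L) =
          ch β (emb u) • monomial (emb u) 1 := by rw [smul_monomial, smul_eq_mul, mul_one]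
      rw [h6, map_smul, D.rd_mon]
      simp
    · intro u' _ hu'
      rw [map_smul, map_smul, sg_monomial, mul_one]
      have h6 : (monomial (emb u') (ch β (emb u')) : MvPolynomial ι L) =
          ch β (emb u') • monomial (emb u') 1 := by rw [smul_monomial, smul_eq_mul, mul_one]
      rw [h6, map_smul, D.rd_mon]
      simp [Pi.single_eq_of_ne (Ne.symm hu')]
    · intro h
      exact absurd (Finset.mem_univ u) h
  have h7 : D.rd (sg β (monomial v 1)) u = ch β v * D.rd (monomial v 1) u := by
    rw [sg_monomial, mul_one]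
    have h6 : (monomial v (ch β v) : MvPolynomial ι L) =
        ch β v • monomial v 1 := by rw [smul_monomial, smul_eq_mul, mul_one]
    rw [h6, map_smul]
    rfl
  rw [h4] at h7
  show (ch β v - ch β (emb u)) * _ = 0
  linear_combination -h7

section hom

variable {ι : Type} [Fintype ι] [DecidableEq ι] {L : Type} [CommRing L] (β : ι → L)

/-- all exponents have the character `χ` -/
def Hm (χ : L) (P : MvPolynomial ι L) : Prop := ∀ s, coeff s P ≠ 0 → ch β s = χ

lemma Hm.mul {χ χ' : L} {P Q : MvPolynomial ι L} (hP : Hm β χ P) (hQ : Hm β χ' Q) :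
    Hm β (χ * χ') (P * Q) := by
  intro s hs
  rw [coeff_mul] at hs
  obtain ⟨x, hx, hx2⟩ := Finset.exists_ne_zero_of_sum_ne_zero hs
  rw [Finset.HasAntidiagonal.mem_antidiagonal] at hx
  rw [← hx, ch_add, hP _ (left_ne_zero_of_mul hx2), hQ _ (right_ne_zero_of_mul hx2)]

lemma Hm.one : Hm β (1 : L) (1 : MvPolynomial ι L) := by
  intro s hs
  rw [coeff_one] at hs
  split_ifs at hs with h
  · rw [← h, ch_zero]
  · exact absurd rfl hs

lemma Hm.pow {χ : L} {P : MvPolynomial ι L} (hP : Hm β χ P) (n : ℕ) : Hm β (χ ^ n) (P ^ n) := by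
  induction n with
  | zero => rw [pow_zero, pow_zero]; exact Hm.one β
  | succ n ih => rw [pow_succ, pow_succ]; exact ih.mul β hP

lemma Hm.prod {T : Type} (s : Finset T) (χ : T → L) (P : T → MvPolynomial ι L)
    (h : ∀ t ∈ s, Hm β (χ t) (P t)) : Hm β (∏ t ∈ s, χ t) (∏ t ∈ s, P t) := by
  classical
  induction s using Finset.induction_on with
  | empty => rw [Finset.prod_empty, Finset.prod_empty]; exact Hm.one β
  | insert a s ha ih =>
    rw [Finset.prod_insert ha, Finset.prod_insert ha]
    exact Hm.mul β (h a (Finset.mem_insert_self _ _))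
      (ih fun t ht => h t (Finset.mem_insert_of_mem ht))

lemma Hm.monomial (s : ι →₀ ℕ) (a : L) : Hm β (ch β s) (MvPolynomial.monomial s a) := by
  intro t ht
  rw [coeff_monomial] at ht
  split_ifs at ht with h
  · rw [h]
  · exact absurd rfl ht

lemma Hm.pderiv {e : ℕ} (hβ : ∀ i, β i ^ (e + 1) = 1) {H : MvPolynomial ι L} (hH : Hm β 1 H)
    (i : ι) : Hm β (β i ^ e) (MvPolynomial.pderiv i H) := by
  intro s hs
  rw [coeff_pderiv] at hs
  have h1 := hH _ (left_ne_zero_of_mul hs)
  rw [ch_add, ch_single, pow_one] at h1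
  calc ch β s = ch β s * β i ^ (e + 1) := by rw [hβ, mul_one]
    _ = (ch β s * β i) * β i ^ e := by ring
    _ = _ := by rw [h1, one_mul]

lemma Hm.leadv {e : ℕ} (he : 0 < e) (hβ : ∀ i, β i ^ (e + 1) = 1) {H : MvPolynomial ι L}
    (hH : Hm β 1 H) (w : ι →₀ ℕ) : Hm β (ch β w) (leadv H e he w) := by
  unfold Pool.Agent.H887.BK.leadv
  have h1 := Hm.mul β (Hm.prod β Finset.univ (fun i => (β i ^ e) ^ (qt e w i)) _
    (fun i _ => Hm.pow β (Hm.pderiv β hβ hH i) (qt e w i))) (Hm.monomial β (emb (rm e he w)) 1)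
  have h2 : (∏ i, (β i ^ e) ^ (qt e w i)) * ch β (emb (rm e he w)) = ch β w := by
    unfold ch
    rw [← Finset.prod_mul_distrib]
    refine Finset.prod_congr rfl fun i _ => ?_
    rw [← pow_mul, ← pow_add]
    congr 1
    show e * (w i / e) + w i % e = w i
    exact Nat.div_add_mod _ _
  rw [h2] at h1
  exact h1

end hom

/-- a matrix which commutes with a diagonal matrix -/
lemma adj_zero {m k : Type} [Fintype m] [DecidableEq m] [Field k] (M : Matrix m m k) (δ : m → k)
    (hδ : ∀ i, δ i ≠ 0) (h : ∀ i j, M i j ≠ 0 → δ i = δ j) (i j : m) (hij : δ i ≠ δ j) :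
    M.adjugate i j = 0 := by
  have h1 : Matrix.diagonal δ * M = M * Matrix.diagonal δ := by
    ext a b
    rw [Matrix.diagonal_mul, Matrix.mul_diagonal]
    by_cases hab : M a b = 0
    · rw [hab, mul_zero, zero_mul]
    · rw [h a b hab, mul_comm]
  have h2 : M.adjugate * (Matrix.diagonal δ).adjugate =
      (Matrix.diagonal δ).adjugate * M.adjugate := by
    rw [← Matrix.adjugate_mul_distrib, ← Matrix.adjugate_mul_distrib, h1]
  have h3 : Matrix.diagonal δ * M.adjugate = M.adjugate * Matrix.diagonal δ := by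
    have hdet : (Matrix.diagonal δ).det ≠ 0 := by
      rw [Matrix.det_diagonal]
      exact Finset.prod_ne_zero_iff.2 fun i _ => hδ i
    have h4 : Matrix.diagonal δ * (M.adjugate * (Matrix.diagonal δ).adjugate) * Matrix.diagonal δ =
        Matrix.diagonal δ * ((Matrix.diagonal δ).adjugate * M.adjugate) * Matrix.diagonal δ := by
      rw [h2]
    have h5 : Matrix.diagonal δ * (M.adjugate * (Matrix.diagonal δ).adjugate) * Matrix.diagonal δ =
        (Matrix.diagonal δ).det • (Matrix.diagonal δ * M.adjugate) := by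
      rw [Matrix.mul_assoc, Matrix.mul_assoc, Matrix.adjugate_mul, Matrix.mul_smul, Matrix.mul_smul,
        Matrix.mul_one]
    have h6 : Matrix.diagonal δ * ((Matrix.diagonal δ).adjugate * M.adjugate) * Matrix.diagonal δ =
        (Matrix.diagonal δ).det • (M.adjugate * Matrix.diagonal δ) := by
      rw [← Matrix.mul_assoc, Matrix.mul_adjugate, Matrix.smul_mul, Matrix.smul_mul, Matrix.one_mul]
    rw [h5, h6] at h4
    exact smul_right_injective _ hdet h4
  have h7 := congrFun (congrFun h3 i) j
  rw [Matrix.diagonal_mul, Matrix.mul_diagonal] at h7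
  by_contra hne
  apply hij
  apply mul_right_cancel₀ hne
  rw [h7, mul_comm]

/-- the reduced matrix respects the symmetries -/
theorem h_BGr : Pool.Agent.H887.BK.S_BGr := by
  intro ι _ _ k _ p e _ _ he c β hpd hβ hs u' u huu
  classical
  have hp1 : 1 ≤ p := (Fact.out : p.Prime).one_lt.le
  have hne : ∀ w, ch β w ≠ 0 := by
    intro w h
    have := ch_pow_eq β hβ w
    rw [h, zero_pow (by omega)] at this
    exact zero_ne_one this
  unfold bnum
  refine Finset.sum_eq_zero fun v _ => ?_
  by_cases h1 : ch β (emb u') = ch β v.1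
  · -- the kernel vanishes
    have h2 : ch β v.1 ≠ ch β (emb u) := by
      rw [← h1]
      exact huu
    have h3 : kap p (e + 1) c (v.1 + one1) (emb u + one1) = 0 := by
      unfold kap
      split_ifs with hU
      · by_contra hnz
        have hTr : Tr β (∏ s ∈ Sd ι (e + 1), EKs p s (c s)) := by
          apply Tr.prod
          intro s hs'
          refine Tr.pows β s (c s) (fun j => (ebn p j : k)) _ ?_ (hs s hs')
          intro w hw
          change ∑ j ∈ Finset.range (w.degree + 1),
            (if j • s = w then (ebn p j : k) * c s ^ j else 0) ≠ 0 at hw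
          obtain ⟨j, _, hj⟩ := Finset.exists_ne_zero_of_sum_ne_zero hw
          split_ifs at hj with h
          · exact ⟨j, h, hj⟩
          · exact absurd rfl hj
        have h4 := hTr _ hnz
        have h5 : ch β (p • (v.1 + one1) - (emb u + one1)) * ch β (emb u + one1) =
            ch β (p • (v.1 + one1)) := by
          rw [← ch_add, tsub_add_cancel_of_le hU]
        rw [h4, one_mul, ch_nsmul, ch_pow_p β hβ hpd _ hp1, ch_add, ch_add] at h5
        exact h2 (mul_right_cancel₀ (hne _) h5).symm
      · rfl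
    rw [h3, mul_zero]
  · have hH : Hm β 1 (form (e + 1) (fun s => c s ^ p)) := by
      intro s hs'
      unfold form at hs'
      rw [coeff_sum] at hs'
      obtain ⟨t, ht, ht2⟩ := Finset.exists_ne_zero_of_sum_ne_zero hs'
      rw [coeff_monomial] at ht2
      split_ifs at ht2 with h
      · rw [← h]
        refine hs t ht ?_
        intro h0
        apply ht2
        show c t ^ p = 0
        rw [h0, zero_pow (by omega)]
      · exact absurd rfl ht2
    have h3 : (LM (form (e + 1) (fun s => c s ^ p)) e he (bdeg u')).adjugate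
        ⟨emb u', emb_mem_Sd u'⟩ v = 0 := by
      apply adj_zero _ (fun w => ch β w.1) (fun w => hne w.1) _ _ _ h1
      intro a b hab
      exact Hm.leadv β he hβ hH b.1 a.1 hab
    rw [h3, zero_mul]

end Pool.Agent.H337.BKG

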