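import Pool.Agent.H887.BK.D2
import Pool.Agent.H425.YB2

set_option autoImplicit false
set_option linter.unusedSectionVars false
set_option linter.unusedVariables false

/-!
# Project BK, part Rd: coordinates in the adapted basis
-/

namespace Pool.Agent.H337.BK

open MvPolynomial Pool.Agent.H425 Pool.Agent.H887.BK

variable {ι : Type} [Fintype ι] [DecidableEq ι] {L : Type} [CommRing L]

/-- polynomials of degree less than `M` in the degrees congruent to `r` modulo `q` -/
def WW (ι L : Type) [CommRing L] (q r M : ℕ) : Submodule L (MvPolynomial ι L) where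
  carrier := {P | ∀ m : ι →₀ ℕ, (M ≤ m.degree ∨ ¬ (m.degree ≡ r [MOD q])) → coeff m P = 0}
  add_mem' := by
    intro a b ha hb m hm
    rw [coeff_add, ha m hm, hb m hm, add_zero]
  zero_mem' := by
    intro m _
    exact coeff_zero m
  smul_mem' := by
    intro c a ha m hm
    rw [coeff_smul, ha m hm, smul_zero]

/-- polynomials of degree less than `M` -/
def VS (ι L : Type) [CommRing L] (M : ℕ) : Submodule L (MvPolynomial ι L) where
  carrier := {P | ∀ m : ι →₀ ℕ, M ≤ m.degree → coeff m P = 0}
  add_mem' := by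
    intro a b ha hb m hm
    rw [coeff_add, ha m hm, hb m hm, add_zero]
  zero_mem' := by
    intro m _
    exact coeff_zero m
  smul_mem' := by
    intro c a ha m hm
    rw [coeff_smul, ha m hm, smul_zero]

theorem VS_mono {M M' : ℕ} (h : M ≤ M') : VS ι L M ≤ VS ι L M' :=
  fun _ hP m hm => hP m (h.trans hm)

theorem WW_mono {q r M M' : ℕ} (h : M ≤ M') : WW ι L q r M ≤ WW ι L q r M' :=
  fun _ hP m hm => hP m (hm.imp (fun h' => h.trans h') id)

theorem VV_eq_VS (M : ℕ) : VV ι L M = VS ι L (M + 1) := rfl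

theorem WW_le_VS (q r M : ℕ) : WW ι L q r M ≤ VS ι L M := fun _ hP m hm => hP m (Or.inl hm)

theorem mul_mem_VS {a b : ℕ} {P Q : MvPolynomial ι L} (hP : P ∈ VV ι L a) (hQ : Q ∈ VS ι L b) :
    P * Q ∈ VS ι L (a + b) := by
  intro m hm
  rw [coeff_mul]
  refine Finset.sum_eq_zero fun x hx => ?_
  rw [Finset.HasAntidiagonal.mem_antidiagonal] at hx
  have h1 : x.1.degree + x.2.degree = m.degree := by rw [← map_add, hx]
  by_cases h2 : a < x.1.degree
  · rw [hP x.1 h2, zero_mul]
  · rw [hQ x.2 (by omega), mul_zero]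

theorem pderiv_mem_VS {M : ℕ} {P : MvPolynomial ι L} (hP : P ∈ VV ι L M) (i : ι) :
    pderiv i P ∈ VS ι L M := by
  intro m hm
  rw [coeff_pderiv, hP, zero_mul]
  rw [map_add, Finsupp.degree_single]
  omega

/-- the product of the partial derivatives -/
noncomputable def FF (H : MvPolynomial ι L) (γ : ι →₀ ℕ) : MvPolynomial ι L :=
  ∏ i, pderiv i H ^ γ i

theorem FF_zero (H : MvPolynomial ι L) : FF H 0 = 1 := by
  simp [FF]

theorem FF_add (H : MvPolynomial ι L) (f g : ι →₀ ℕ) : FF H (f + g) = FF H f * FF H g := by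
  rw [FF, FF, FF, ← Finset.prod_mul_distrib]
  refine Finset.prod_congr rfl fun i _ => ?_
  rw [Finsupp.add_apply, pow_add]

theorem FF_single (H : MvPolynomial ι L) (i : ι) (a : ℕ) :
    FF H (Finsupp.single i a) = pderiv i H ^ a := by
  rw [FF, Finset.prod_eq_single i]
  · rw [Finsupp.single_eq_same]
  · intro j _ hj
    rw [Finsupp.single_eq_of_ne hj, pow_zero]
  · intro h
    exact absurd (Finset.mem_univ i) h

theorem FF_hom {H : MvPolynomial ι L} {e : ℕ} (hH : H.IsHomogeneous (e + 1)) (γ : ι →₀ ℕ) :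
    (FF H γ).IsHomogeneous (e * γ.degree) := by
  have h1 : e * γ.degree = ∑ i, e * γ i := by
    rw [Finsupp.degree_eq_sum, Finset.mul_sum]
  rw [h1, FF]
  refine IsHomogeneous.prod _ _ _ fun i _ => ?_
  have := (hH.pderiv (i := i)).pow (γ i)
  rwa [Nat.add_sub_cancel] at this

theorem leadv_eq (H : MvPolynomial ι L) (e : ℕ) (he : 0 < e) (w : ι →₀ ℕ) :
    leadv H e he w = FF H (qt e w) * monomial (emb (rm e he w)) 1 := rfl

theorem deg_rm (e : ℕ) (he : 0 < e) (w : ι →₀ ℕ) :
    e * (qt e w).degree + (emb (rm e he w)).degree = w.degree := by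
  rw [← degree_qt_rm e he w, degree_emb, bdeg]
  omega

theorem leadv_hom {H : MvPolynomial ι L} {e : ℕ} (he : 0 < e) (hH : H.IsHomogeneous (e + 1))
    (w : ι →₀ ℕ) : (leadv H e he w).IsHomogeneous w.degree := by
  rw [leadv_eq, ← deg_rm e he w]
  exact (FF_hom hH _).mul (isHomogeneous_monomial _ rfl)

theorem coeff_hom {P : MvPolynomial ι L} {n : ℕ} (hP : P.IsHomogeneous n) {m : ι →₀ ℕ}
    (hm : m.degree ≠ n) : coeff m P = 0 := by
  by_contra h
  have h1 := hP h
  have h2 : (Finsupp.weight (1 : ι → ℕ)) m = m.degree := by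
    rw [Finsupp.degree_eq_weight_one]
    rfl
  rw [h2] at h1
  exact hm h1

theorem yp_lead {H : MvPolynomial ι L} {e : ℕ} (hH : H.IsHomogeneous (e + 1)) (γ : ι →₀ ℕ) :
    ∀ {M : ℕ} {P : MvPolynomial ι L}, P ∈ VV ι L M →
      yp H γ P - FF H γ * P ∈ VS ι L (M + e * γ.degree) := by
  have hHV : H ∈ VV ι L (e + 1) := homog_mem_VV hH
  induction γ using Finsupp.induction_linear with
  | zero =>
    intro M P hP
    rw [yp_zero, FF_zero, one_mul, Module.End.one_apply, sub_self]
    exact Submodule.zero_mem _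
  | add f g hf hg =>
    intro M P hP
    have h1 := yp_mem_VV hHV g hP
    have h2 := hf h1
    have h3 := hg hP
    have h4 := mul_mem_VS (homog_mem_VV (FF_hom hH f)) h3
    rw [yp_add, Module.End.mul_apply, FF_add, map_add]
    have h5 : yp H f (yp H g P) - FF H f * FF H g * P =
        (yp H f (yp H g P) - FF H f * yp H g P) + FF H f * (yp H g P - FF H g * P) := by ring
    rw [h5]
    refine Submodule.add_mem _ ?_ ?_
    · refine VS_mono ?_ h2
      rw [mul_add]
      omega
    · refine VS_mono ?_ h4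
      rw [mul_add]
      omega
  | single i a =>
    intro M P hP
    rw [yp_single, FF_single, Finsupp.degree_single]
    induction a with
    | zero =>
      rw [pow_zero, pow_zero, one_mul, Module.End.one_apply, sub_self]
      exact Submodule.zero_mem _
    | succ a ih =>
      rw [pow_succ', Module.End.mul_apply, pow_succ', yop_apply]
      have h1 := yp_mem_VV hHV (Finsupp.single i a) hP
      rw [yp_single, Finsupp.degree_single] at h1
      have h2 := pderiv_mem_VS h1 i
      have hd : (pderiv i H) ∈ VV ι L e := by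
        have := homog_mem_VV (hH.pderiv (i := i))
        rwa [Nat.add_sub_cancel] at this
      have h3 := mul_mem_VS hd ih
      have h5 : (pderiv i ((yop H i ^ a) P) + pderiv i H * (yop H i ^ a) P) -
          pderiv i H * pderiv i H ^ a * P =
          pderiv i ((yop H i ^ a) P) + pderiv i H * ((yop H i ^ a) P - pderiv i H ^ a * P) := by ring
      rw [h5]
      refine Submodule.add_mem _ ?_ ?_
      · refine VS_mono ?_ h2
        rw [mul_add]
        omega
      · refine VS_mono ?_ h3
        rw [mul_add]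
        omega

theorem Phi_lead {H : MvPolynomial ι L} {e : ℕ} (he : 0 < e) (hH : H.IsHomogeneous (e + 1))
    (w : ι →₀ ℕ) : Phi H e he emb (monomial w 1) - leadv H e he w ∈ VS ι L w.degree := by
  rw [Phi_monomial, leadv_eq]
  have := yp_lead hH (qt e w) (monomial_mem_VV (ι := ι) (L := L) (m := emb (rm e he w)) le_rfl 1)
  rwa [add_comm, deg_rm] at this

/-! ### gradings -/

theorem yop_mem_GG {H : MvPolynomial ι L} {e : ℕ} (hH : H.IsHomogeneous (e + 1)) (i : ι)
    {r : ℕ} {P : MvPolynomial ι L}
    (hP : ∀ m : ι →₀ ℕ, ¬ (m.degree ≡ r [MOD (e + 1)]) → coeff m P = 0) :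
    ∀ m : ι →₀ ℕ, ¬ (m.degree ≡ r + e [MOD (e + 1)]) → coeff m (yop H i P) = 0 := by
  intro m hm
  rw [yop_apply, coeff_add]
  have h1 : coeff m (pderiv i P) = 0 := by
    rw [coeff_pderiv, hP, zero_mul]
    intro h
    apply hm
    rw [map_add, Finsupp.degree_single] at h
    have h2 : m.degree + 1 + e ≡ r + e [MOD (e + 1)] := h.add_right e
    have h3 : m.degree + 1 + e ≡ m.degree [MOD (e + 1)] := by
      rw [add_assoc, add_comm 1 e]
      simp [Nat.ModEq]
    exact h3.symm.trans h2
  have h2 : coeff m (pderiv i H * P) = 0 := by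
    rw [coeff_mul]
    refine Finset.sum_eq_zero fun x hx => ?_
    rw [Finset.HasAntidiagonal.mem_antidiagonal] at hx
    have h1 : x.1.degree + x.2.degree = m.degree := by rw [← map_add, hx]
    have hd := hH.pderiv (i := i)
    rw [Nat.add_sub_cancel] at hd
    by_cases h3 : x.1.degree = e
    · rw [hP x.2, mul_zero]
      intro h4
      apply hm
      rw [← h1, h3, add_comm e x.2.degree]
      exact h4.add_right e
    · rw [coeff_hom hd h3, zero_mul]
  rw [h1, h2, add_zero]

theorem yp_mem_GG {H : MvPolynomial ι L} {e : ℕ} (hH : H.IsHomogeneous (e + 1)) (γ : ι →₀ ℕ) :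
    ∀ {r : ℕ} {P : MvPolynomial ι L},
    (∀ m : ι →₀ ℕ, ¬ (m.degree ≡ r [MOD (e + 1)]) → coeff m P = 0) →
    ∀ m : ι →₀ ℕ, ¬ (m.degree ≡ r + e * γ.degree [MOD (e + 1)]) → coeff m (yp H γ P) = 0 := by
  induction γ using Finsupp.induction_linear with
  | zero =>
    intro r P hP
    rw [yp_zero, Module.End.one_apply]
    simpa using hP
  | add f g hf hg =>
    intro r P hP
    rw [yp_add, Module.End.mul_apply, map_add, mul_add, add_comm (e * f.degree), ← add_assoc]
    exact hf (hg hP)
  | single i a =>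
    intro r P hP
    rw [yp_single, Finsupp.degree_single]
    induction a with
    | zero =>
      simpa using hP
    | succ a ih =>
      rw [pow_succ', Module.End.mul_apply, mul_add, mul_one, ← add_assoc]
      exact yop_mem_GG hH i ih

theorem Phi_mon_GG {H : MvPolynomial ι L} {e : ℕ} (he : 0 < e) (hH : H.IsHomogeneous (e + 1))
    (w m : ι →₀ ℕ) (hm : ¬ (m.degree ≡ w.degree [MOD (e + 1)])) :
    coeff m (Phi H e he emb (monomial w 1)) = 0 := by
  rw [Phi_monomial]
  refine yp_mem_GG hH (qt e w) (r := (emb (rm e he w)).degree) ?_ m ?_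
  · intro m' hm'
    rw [coeff_monomial, if_neg]
    rintro rfl
    exact hm' rfl
  · rw [add_comm (emb (rm e he w)).degree, deg_rm]
    exact hm

theorem Phi_mem_WW {H : MvPolynomial ι L} {e : ℕ} (he : 0 < e) (hH : H.IsHomogeneous (e + 1))
    {r M : ℕ} {P : MvPolynomial ι L} (hP : P ∈ WW ι L (e + 1) r M) :
    Phi H e he emb P ∈ WW ι L (e + 1) r M := by
  rw [P.as_sum, map_sum]
  refine Submodule.sum_mem _ fun w hw => ?_
  have h0 : ¬ (M ≤ w.degree ∨ ¬ (w.degree ≡ r [MOD (e + 1)])) := by
    intro h
    exact (mem_support_iff.1 hw) (hP w h)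
  push Not at h0
  have : monomial w (coeff w P) = coeff w P • monomial w (1 : L) := by
    rw [smul_monomial, smul_eq_mul, mul_one]
  rw [this, map_smul]
  refine Submodule.smul_mem _ _ ?_
  rintro m (hm | hm)
  · have h1 := Phi_mem_VV he (homog_mem_VV hH) (b := emb) (fun u => degree_emb u)
      (monomial_mem_VV (ι := ι) (L := L) (m := w) le_rfl 1)
    exact h1 m (by omega)
  · refine Phi_mon_GG he hH w m ?_
    intro h
    exact hm (h.trans h0.2)

/-! ### surjectivity -/

/-- the approximate preimage of `x ^ v` -/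
noncomputable def Av (H : MvPolynomial ι L) (e : ℕ) (he : 0 < e) (j : ℕ) (v : Sd ι j) :
    MvPolynomial ι L :=
  ∑ w : Sd ι j, (LM H e he j)⁻¹ w v • monomial w.1 1

theorem hom_expand {P : MvPolynomial ι L} {j : ℕ} (hP : P.IsHomogeneous j) :
    P = ∑ v : Sd ι j, coeff v.1 P • monomial v.1 1 := by
  ext m
  rw [coeff_sum]
  simp only [coeff_smul, coeff_monomial, smul_eq_mul, mul_ite, mul_one, mul_zero]
  by_cases h : m.degree = j
  · rw [Finset.sum_eq_single (⟨m, (mem_Sd j m).2 h⟩ : Sd ι j)]
    · simp
    · intro b _ hb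
      rw [if_neg]
      intro h'
      exact hb (Subtype.ext h')
    · intro h'
      exact absurd (Finset.mem_univ _) h'
  · rw [coeff_hom hP h, Finset.sum_eq_zero]
    intro b _
    rw [if_neg]
    intro h'
    apply h
    rw [← h']
    exact (mem_Sd j _).1 b.2

theorem Phi_Av {H : MvPolynomial ι L} {e : ℕ} (he : 0 < e) (hH : H.IsHomogeneous (e + 1)) {j : ℕ}
    (hdet : IsUnit (LM H e he j).det) (v : Sd ι j) :
    monomial v.1 1 - Phi H e he emb (Av H e he j v) ∈ VS ι L j := by
  have h1 : ∑ w : Sd ι j, (LM H e he j)⁻¹ w v • leadv H e he w.1 = monomial v.1 1 := by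
    have h2 : ∀ w : Sd ι j, leadv H e he w.1 =
        ∑ v' : Sd ι j, LM H e he j v' w • monomial v'.1 1 := by
      intro w
      have h3 := leadv_hom he hH w.1
      rw [(mem_Sd j w.1).1 w.2] at h3
      exact hom_expand h3
    simp only [h2, Finset.smul_sum, smul_smul]
    rw [Finset.sum_comm]
    have h4 : ∀ v' : Sd ι j, ∑ w : Sd ι j,
        ((LM H e he j)⁻¹ w v * LM H e he j v' w) • (monomial v'.1 (1 : L)) =
        (1 : Matrix (Sd ι j) (Sd ι j) L) v' v • monomial v'.1 1 := by
      intro v'
      rw [← Finset.sum_smul, ← Matrix.mul_nonsing_inv _ hdet, Matrix.mul_apply]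
      congr 1
      exact Finset.sum_congr rfl fun w _ => mul_comm _ _
    simp only [h4]
    rw [Finset.sum_eq_single v]
    · rw [Matrix.one_apply_eq, one_smul]
    · intro b _ hb
      rw [Matrix.one_apply_ne hb, zero_smul]
    · intro h'
      exact absurd (Finset.mem_univ _) h'
  rw [Av, map_sum, ← h1, ← Finset.sum_sub_distrib]
  refine Submodule.sum_mem _ fun w _ => ?_
  rw [map_smul, ← smul_sub]
  refine Submodule.smul_mem _ _ ?_
  have h5 := Phi_lead he hH w.1
  rw [(mem_Sd j w.1).1 w.2] at h5
  rw [← neg_sub]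
  exact Submodule.neg_mem _ h5

theorem monomial_mem_WW {q r M : ℕ} {w : ι →₀ ℕ} (h1 : w.degree < M)
    (h2 : w.degree ≡ r [MOD q]) (a : L) : monomial w a ∈ WW ι L q r M := by
  rintro m hm
  rw [coeff_monomial, if_neg]
  rintro rfl
  rcases hm with hm | hm
  · omega
  · exact hm h2

theorem Av_mem {H : MvPolynomial ι L} {e : ℕ} (he : 0 < e) {j r : ℕ} (hr : j ≡ r [MOD (e + 1)])
    (v : Sd ι j) : Av H e he j v ∈ WW ι L (e + 1) r (j + 1) := by
  refine Submodule.sum_mem _ fun w _ => Submodule.smul_mem _ _ ?_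
  have h := (mem_Sd j w.1).1 w.2
  exact monomial_mem_WW (by omega) (by rw [h]; exact hr) 1

theorem WW_span {H : MvPolynomial ι L} {e : ℕ} (he : 0 < e) (hH : H.IsHomogeneous (e + 1))
    (hdet : ∀ j, IsUnit (LM H e he j).det) (r : ℕ) : ∀ M : ℕ,
    WW ι L (e + 1) r M ≤ (WW ι L (e + 1) r M).map (Phi H e he emb) := by
  intro M
  induction M with
  | zero =>
    intro P hP
    have : P = 0 := by
      ext m
      rw [coeff_zero]
      exact hP m (Or.inl (Nat.zero_le _))
    rw [this]
    exact Submodule.zero_mem _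
  | succ M ih =>
    intro P hP
    by_cases hr : M ≡ r [MOD (e + 1)]
    · have h1 : P - ∑ v : Sd ι M, coeff v.1 P • Phi H e he emb (Av H e he M v) ∈
          WW ι L (e + 1) r M := by
        rintro m (hm | hm)
        · rcases hm.lt_or_eq with hm | hm
          · rw [coeff_sub, hP m (Or.inl hm), coeff_sum, Finset.sum_eq_zero, sub_zero]
            intro v _
            rw [coeff_smul, Phi_mem_WW he hH (Av_mem he hr v) m (Or.inl hm), smul_zero]
          · have h2 : ∀ v : Sd ι M, coeff m (Phi H e he emb (Av H e he M v)) =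
                coeff m (monomial v.1 (1 : L)) := by
              intro v
              have h3 := Phi_Av he hH (hdet M) v m (by omega)
              rw [coeff_sub, sub_eq_zero] at h3
              exact h3.symm
            rw [coeff_sub, coeff_sum, sub_eq_zero]
            simp only [coeff_smul, h2, coeff_monomial, smul_eq_mul, mul_ite, mul_one, mul_zero]
            rw [Finset.sum_eq_single (⟨m, (mem_Sd M m).2 hm.symm⟩ : Sd ι M)]
            · simp
            · intro b _ hb
              rw [if_neg]
              intro h'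
              exact hb (Subtype.ext h')
            · intro h'
              exact absurd (Finset.mem_univ _) h'
        · rw [coeff_sub, hP m (Or.inr hm), coeff_sum, Finset.sum_eq_zero, sub_zero]
          intro v _
          rw [coeff_smul, Phi_mem_WW he hH (Av_mem he hr v) m (Or.inr hm), smul_zero]
      obtain ⟨Q, hQ, hQ2⟩ := ih h1
      refine ⟨Q + ∑ v : Sd ι M, coeff v.1 P • Av H e he M v, ?_, ?_⟩
      · refine Submodule.add_mem _ (WW_mono (Nat.le_succ M) hQ) ?_
        exact Submodule.sum_mem _ fun v _ => Submodule.smul_mem _ _ (Av_mem he hr v)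
      · rw [map_add, hQ2, map_sum]
        simp only [map_smul]
        ring
    · have h1 : P ∈ WW ι L (e + 1) r M := by
        rintro m (hm | hm)
        · rcases hm.lt_or_eq with hm | hm
          · exact hP m (Or.inl hm)
          · refine hP m (Or.inr ?_)
            rwa [← hm]
        · exact hP m (Or.inr hm)
      exact Submodule.map_mono (WW_mono (Nat.le_succ M)) (ih h1)

theorem VS_span {H : MvPolynomial ι L} {e : ℕ} (he : 0 < e) (hH : H.IsHomogeneous (e + 1))
    (hdet : ∀ j, IsUnit (LM H e he j).det) (M : ℕ) :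
    VS ι L M ≤ (VS ι L M).map (Phi H e he emb) := by
  intro P hP
  rw [P.as_sum]
  refine Submodule.sum_mem _ fun w hw => ?_
  have h0 : ¬ M ≤ w.degree := fun h => (mem_support_iff.1 hw) (hP w h)
  have h1 := WW_span he hH hdet w.degree M
    (monomial_mem_WW (q := e + 1) (r := w.degree) (by omega : w.degree < M) rfl (coeff w P))
  exact Submodule.map_mono (WW_le_VS _ _ _) h1

theorem Phi_bij {H : MvPolynomial ι L} {e : ℕ} (he : 0 < e) (hH : H.IsHomogeneous (e + 1))
    (hdet : ∀ j, IsUnit (LM H e he j).det) : Function.Bijective (Phi H e he emb) := by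
  have hHV : H ∈ VV ι L (e + 1) := homog_mem_VV hH
  have hb : ∀ u : ι → Fin e, (emb u).degree = ∑ i, (u i : ℕ) := fun u => degree_emb u
  constructor
  · rw [injective_iff_map_eq_zero]
    intro P hP
    obtain ⟨M, hM⟩ := exists_VV P
    let f : VV ι L M →ₗ[L] VV ι L M :=
      (Phi H e he emb).restrict (fun x hx => Phi_mem_VV he hHV hb hx)
    have hf : Function.Surjective f := by
      rintro ⟨x, hx⟩
      obtain ⟨y, hy, hy2⟩ := VS_span he hH hdet (M + 1) hx
      exact ⟨⟨y, hy⟩, Subtype.ext hy2⟩
    have hfin : Module.Finite L (VV ι L M) := Module.Finite.iff_fg.2 (VV_fg M)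
    have hinj : Function.Injective f := OrzechProperty.injective_of_surjective_endomorphism f hf
    have h0 : f ⟨P, hM⟩ = 0 := Subtype.ext hP
    have h1 := hinj (h0.trans (map_zero f).symm)
    exact congrArg Subtype.val h1
  · intro P
    obtain ⟨M, hM⟩ := exists_VV P
    obtain ⟨y, _, hy2⟩ := VS_span he hH hdet (M + 1) hM
    exact ⟨y, hy2⟩

/-- the inverse of `Phi` -/
noncomputable def PE {H : MvPolynomial ι L} {e : ℕ} (he : 0 < e) (hH : H.IsHomogeneous (e + 1))
    (hdet : ∀ j, IsUnit (LM H e he j).det) : MvPolynomial ι L ≃ₗ[L] MvPolynomial ι L :=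
  LinearEquiv.ofBijective (Phi H e he emb) (Phi_bij he hH hdet)

theorem PE_apply {H : MvPolynomial ι L} {e : ℕ} (he : 0 < e) (hH : H.IsHomogeneous (e + 1))
    (hdet : ∀ j, IsUnit (LM H e he j).det) (P : MvPolynomial ι L) :
    PE he hH hdet P = Phi H e he emb P := rfl

theorem PE_symm_VS {H : MvPolynomial ι L} {e : ℕ} (he : 0 < e) (hH : H.IsHomogeneous (e + 1))
    (hdet : ∀ j, IsUnit (LM H e he j).det) {M : ℕ} {P : MvPolynomial ι L} (hP : P ∈ VS ι L M) :
    (PE he hH hdet).symm P ∈ VS ι L M := by
  obtain ⟨Q, hQ, hQ2⟩ := VS_span he hH hdet M hP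
  rw [← hQ2, ← PE_apply he hH hdet, LinearEquiv.symm_apply_apply]
  exact hQ

theorem PE_symm_WW {H : MvPolynomial ι L} {e : ℕ} (he : 0 < e) (hH : H.IsHomogeneous (e + 1))
    (hdet : ∀ j, IsUnit (LM H e he j).det) {r M : ℕ} {P : MvPolynomial ι L}
    (hP : P ∈ WW ι L (e + 1) r M) : (PE he hH hdet).symm P ∈ WW ι L (e + 1) r M := by
  obtain ⟨Q, hQ, hQ2⟩ := WW_span he hH hdet r M hP
  rw [← hQ2, ← PE_apply he hH hdet, LinearEquiv.symm_apply_apply]
  exact hQ

/-- splitting off the part in the box -/
theorem box_split (e : ℕ) (he : 0 < e) (Q : MvPolynomial ι L) : ∃ R : ι → MvPolynomial ι L,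
    Q = ∑ u : ι → Fin e, coeff (emb u) Q • monomial (emb u) 1 + ∑ i, X i ^ e * R i := by
  induction Q using MvPolynomial.induction_on' with
  | monomial w a =>
    by_cases h : ∀ i, w i < e
    · refine ⟨0, ?_⟩
      have hw : w = emb (fun i => (⟨w i, h i⟩ : Fin e)) := by
        ext i; rfl
      simp only [Pi.zero_apply, mul_zero, Finset.sum_const_zero, add_zero]
      rw [Finset.sum_eq_single (fun i => (⟨w i, h i⟩ : Fin e))]
      · rw [← hw, coeff_monomial, if_pos rfl, smul_monomial, smul_eq_mul, mul_one]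
      · intro u _ hu
        rw [coeff_monomial, if_neg, zero_smul]
        intro h'
        apply hu
        apply emb_injective
        rw [← h', ← hw]
      · intro h'
        exact absurd (Finset.mem_univ _) h'
    · push Not at h
      obtain ⟨i0, hi0⟩ := h
      refine ⟨Pi.single i0 (monomial (w - Finsupp.single i0 e) a), ?_⟩
      have h1 : ∑ u : ι → Fin e, coeff (emb u) (monomial w a) • monomial (emb u) (1 : L) = 0 := by
        refine Finset.sum_eq_zero fun u _ => ?_
        rw [coeff_monomial, if_neg, zero_smul]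
        intro h'
        have : w i0 = (u i0 : ℕ) := by rw [h']; rfl
        have h2 := (u i0).2
        omega
      rw [h1, zero_add, Finset.sum_eq_single i0]
      · rw [Pi.single_eq_same, X_pow_eq_monomial, monomial_mul, one_mul,
          add_tsub_cancel_of_le]
        rw [Finsupp.single_le_iff]
        exact hi0
      · intro j _ hj
        rw [Pi.single_eq_of_ne hj, mul_zero]
      · intro h'
        exact absurd (Finset.mem_univ _) h'
  | add p q hp hq =>
    obtain ⟨R1, h1⟩ := hp
    obtain ⟨R2, h2⟩ := hq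
    refine ⟨R1 + R2, ?_⟩
    conv_lhs => rw [h1, h2]
    simp only [coeff_add, add_smul, Finset.sum_add_distrib, Pi.add_apply, mul_add]
    ring

theorem h_Rd : S_Rd := by
  intro ι _ _ L _ e he H hH hdet
  set S := (PE he hH hdet).symm with hS
  have hPhi : ∀ P, Phi H e he emb (S P) = P := fun P => (PE he hH hdet).apply_symm_apply P
  have hS' : ∀ P, S (Phi H e he emb P) = P := fun P => (PE he hH hdet).symm_apply_apply P
  have hmon : ∀ u : ι → Fin e, S (monomial (emb u) 1) = monomial (emb u) 1 := by
    intro u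
    conv_lhs => rw [← Phi_small H e he emb u 1]
    exact hS' _
  have hyop : ∀ i P, S (yop H i P) = X i ^ e * S P := by
    intro i P
    conv_lhs => rw [← hPhi P, ← Phi_X]
    exact hS' _
  refine ⟨{
      rd := LinearMap.pi (fun u => (lcoeff L (emb u)) ∘ₗ (S : MvPolynomial ι L →ₗ[L] MvPolynomial ι L))
      rd_yop := ?_
      rd_mon := ?_
      rd_low := ?_
      dec := ?_ }, ?_, ?_⟩
  · intro i P
    ext u
    show coeff (emb u) (S (yop H i P)) = 0
    rw [hyop, X_pow_eq_monomial, coeff_monomial_mul', if_neg]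
    rw [Finsupp.single_le_iff, emb_apply]
    have := (u i).2
    omega
  · intro u
    ext u'
    show coeff (emb u') (S (monomial (emb u) 1)) = _
    rw [hmon, coeff_monomial, Pi.single_apply]
    by_cases h : u' = u
    · rw [if_pos h, if_pos (by rw [h])]
    · rw [if_neg h, if_neg]
      intro h'
      exact h (emb_injective h'.symm)
  · intro w u hw
    show coeff (emb u) (S (monomial w 1)) = 0
    have h1 : monomial w (1 : L) ∈ VS ι L (bdeg u) := by
      intro m hm
      rw [coeff_monomial, if_neg]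
      rintro rfl
      omega
    exact PE_symm_VS he hH hdet h1 (emb u) (by rw [degree_emb])
  · intro P
    obtain ⟨R, hR⟩ := box_split e he (S P)
    refine ⟨fun i => Phi H e he emb (R i), ?_⟩
    conv_lhs => rw [← hPhi P, hR]
    rw [map_add, map_sum, map_sum]
    congr 1
    · refine Finset.sum_congr rfl fun u _ => ?_
      rw [map_smul]
      congr 1
      exact Phi_small H e he emb u 1
    · refine Finset.sum_congr rfl fun i _ => ?_
      rw [Phi_X]
  · intro v u hv
    show coeff (emb u) (S (monomial v 1)) = _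
    have h1 := PE_symm_VS he hH hdet (Phi_Av he hH (hdet (bdeg u)) ⟨v, hv⟩) (emb u)
      (by rw [degree_emb])
    rw [← hS, map_sub, hS', coeff_sub, sub_eq_zero] at h1
    rw [h1, Av, coeff_sum]
    simp only [coeff_smul, coeff_monomial, smul_eq_mul, mul_ite, mul_one, mul_zero]
    rw [Finset.sum_eq_single (⟨emb u, emb_mem_Sd u⟩ : Sd ι (bdeg u))]
    · simp
    · intro b _ hb
      rw [if_neg]
      intro h'
      exact hb (Subtype.ext h')
    · intro h'
      exact absurd (Finset.mem_univ _) h'
  · intro v u hvu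
    show coeff (emb u) (S (monomial v 1)) = 0
    have h1 : monomial v (1 : L) ∈ WW ι L (e + 1) v.degree (v.degree + 1) :=
      monomial_mem_WW (Nat.lt_succ_self _) rfl 1
    refine PE_symm_WW he hH hdet h1 (emb u) (Or.inr ?_)
    rw [degree_emb]
    exact fun h => hvu h.symm

theorem h_RdU : S_RdU := by
  intro ι _ _ L _ e H D ℓ hℓ P
  obtain ⟨Q, hQ⟩ := D.dec P
  conv_lhs => rw [hQ]
  rw [map_add, map_sum, map_sum, Finset.sum_eq_zero (s := Finset.univ)
    (f := fun i => ℓ (yop H i (Q i))) (fun i _ => hℓ i (Q i)), add_zero]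
  refine Finset.sum_congr rfl fun u _ => ?_
  rw [map_smul, smul_eq_mul]

theorem map_yop {L' : Type} [CommRing L'] (π : L →+* L') (H : MvPolynomial ι L) (i : ι)
    (P : MvPolynomial ι L) : map π (yop H i P) = yop (map π H) i (map π P) := by
  rw [yop_apply, yop_apply, map_add, map_mul, pderiv_map, pderiv_map]

theorem h_RdM : S_RdM := by
  intro ι _ _ L L' _ _ π hπ e H D
  set rd' : MvPolynomial ι L' →ₗ[L'] ((ι → Fin e) → L') :=
    (basisMonomials ι L').constr L' (fun w u => π (D.rd (monomial w 1) u)) with hrd'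
  have hmon : ∀ w : ι →₀ ℕ, ∀ u, rd' (monomial w 1) u = π (D.rd (monomial w 1) u) := by
    intro w u
    have := (basisMonomials ι L').constr_basis L' (fun w u => π (D.rd (monomial w 1) u)) w
    rw [coe_basisMonomials] at this
    exact congrFun this u
  have key : ∀ P u, rd' (map π P) u = π (D.rd P u) := by
    intro P u
    induction P using MvPolynomial.induction_on' with
    | monomial w a =>
      have h1 : monomial w a = a • monomial w (1 : L) := by
        rw [smul_monomial, smul_eq_mul, mul_one]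
      have h2 : (monomial w (π a) : MvPolynomial ι L') = π a • monomial w (1 : L') := by
        rw [smul_monomial, smul_eq_mul, mul_one]
      rw [map_monomial, h2, map_smul, Pi.smul_apply, hmon, h1, map_smul, Pi.smul_apply, smul_eq_mul,
        smul_eq_mul, map_mul]
    | add p q hp hq =>
      rw [map_add, map_add, Pi.add_apply, hp, hq, map_add, Pi.add_apply, map_add]
  have hsurj := map_surjective (σ := ι) π hπ
  refine ⟨{
      rd := rd'
      rd_yop := ?_
      rd_mon := ?_
      rd_low := ?_
      dec := ?_ }, key⟩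
  · intro i P'
    obtain ⟨P, rfl⟩ := hsurj P'
    rw [← map_yop]
    ext u
    rw [key, D.rd_yop]
    simp
  · intro u
    ext u'
    rw [hmon, D.rd_mon, Pi.single_apply, Pi.single_apply]
    split_ifs <;> simp
  · intro w u hw
    rw [hmon, D.rd_low w u hw, map_zero]
  · intro P'
    obtain ⟨P, rfl⟩ := hsurj P'
    obtain ⟨Q, hQ⟩ := D.dec P
    refine ⟨fun i => map π (Q i), ?_⟩
    conv_lhs => rw [hQ]
    rw [map_add, map_sum, map_sum]
    congr 1
    · refine Finset.sum_congr rfl fun u _ => ?_
      rw [key, smul_eq_C_mul, map_mul, map_C, map_monomial, map_one, smul_eq_C_mul]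
    · refine Finset.sum_congr rfl fun i _ => ?_
      rw [map_yop]

end Pool.Agent.H337.BK
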